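import Pool.Agent.H91.FP8

set_option autoImplicit false

open H91FT in
theorem Pool.Agent.Results.MP_ced2c5_an.NoConj.result :
   
    ∀ (A : Type) [CStarAlgebra A] [Nontrivial A] (s : ℕ → A), H91FP.CuntzGen s → CuntzUniv s →
      ∃ (μ : A →ₗ[ℂ] ℂ) (φ₁ φ₂ : A →⋆ₐ[ℂ] A), H91FP.IsState μ ∧ (∀ a, μ (φ₁ a) = μ (φ₂ a)) ∧
        ∃ (ε : ℝ) (a : A), 0 < ε ∧
          (∀ α : A ≃⋆ₐ[ℂ] A, (∀ x, μ (α x) = μ x) → ε ≤ ‖φ₂ a - α (φ₁ a)‖) ∧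
          ∀ u ∈ unitary A, (∀ x, μ (u * x * star u) = μ x) →
            ε ≤ ‖φ₂ a - u * φ₁ a * star u‖ :=
  main
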